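import Pool.Agent.Helper53.KC.Goals

namespace Pool.Agent.Helper3.KC

open Finset Pool.Agent.Helper53.KC

/-- colour of a set: the sum of its elements modulo `n` -/
def col (n : ℕ) (X : Finset (Fin n)) : ℕ := (∑ i ∈ X, (i : ℕ)) % n

theorem col_ne {n : ℕ} {X Y : Finset (Fin n)} (h : adj X Y) : col n X ≠ col n Y := by
  classical
  obtain ⟨h1, h2⟩ := h
  intro hc
  have hX : (X \ Y).card = 1 := by
    have := Finset.card_sdiff_add_card_inter X Y
    omega
  have hY : (Y \ X).card = 1 := by
    have := Finset.card_sdiff_add_card_inter Y X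
    rw [Finset.inter_comm] at this
    omega
  obtain ⟨e, he⟩ := Finset.card_eq_one.1 hX
  obtain ⟨f, hf⟩ := Finset.card_eq_one.1 hY
  have heX : e ∈ X \ Y := by rw [he]; simp
  have hfY : f ∈ Y \ X := by rw [hf]; simp
  have hef : e ≠ f := by
    rintro rfl
    exact (Finset.mem_sdiff.1 heX).2 (Finset.mem_sdiff.1 hfY).1
  have s1 : ∑ i ∈ X, (i : ℕ) = ∑ i ∈ X ∩ Y, (i : ℕ) + (e : ℕ) := by
    have := Finset.sum_inter_add_sum_sdiff X Y (fun i : Fin n => (i : ℕ))
    rw [he, Finset.sum_singleton] at this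
    exact this.symm
  have s2 : ∑ i ∈ Y, (i : ℕ) = ∑ i ∈ X ∩ Y, (i : ℕ) + (f : ℕ) := by
    have := Finset.sum_inter_add_sum_sdiff Y X (fun i : Fin n => (i : ℕ))
    rw [hf, Finset.sum_singleton, Finset.inter_comm] at this
    exact this.symm
  unfold col at hc
  rw [s1, s2] at hc
  have : (e : ℕ) % n = (f : ℕ) % n := Nat.ModEq.add_left_cancel' _ hc
  rw [Nat.mod_eq_of_lt e.2, Nat.mod_eq_of_lt f.2] at this
  exact hef (Fin.ext this)

theorem gs : GsStmt := by
  classical
  intro n r W hn hW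
  have hcol : ∀ X ∈ W, col n X ∈ Finset.range n := fun X _ =>
    Finset.mem_range.2 (Nat.mod_lt _ hn)
  obtain ⟨c, hc, hle⟩ : ∃ c ∈ Finset.range n, W.card ≤ n * (W.filter fun X => col n X = c).card := by
    by_contra hcon
    push Not at hcon
    have h1 : W.card = ∑ c ∈ Finset.range n, (W.filter fun X => col n X = c).card :=
      Finset.card_eq_sum_card_fiberwise hcol
    have h2 : ∑ c ∈ Finset.range n, n * (W.filter fun X => col n X = c).card <
        ∑ c ∈ Finset.range n, W.card :=
      Finset.sum_lt_sum_of_nonempty (Finset.nonempty_range_iff.2 (by omega)) hcon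
    rw [← Finset.mul_sum, ← h1] at h2
    simp at h2
  refine ⟨W.filter fun X => col n X = c, Finset.filter_subset _ _, ?_, hle⟩
  intro X hX Y hY hadj
  exact col_ne hadj ((Finset.mem_filter.1 hX).2.trans (Finset.mem_filter.1 hY).2.symm)

end Pool.Agent.Helper3.KC
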