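import Pool.Agent.Helper94.KC.Goals

/-!
# Basic facts on links (packet KC-L1)
-/

set_option autoImplicit false

namespace Pool.Agent.Helper3.KC

open Pool.Agent.Helper94.KC
open scoped Classical
open Finset

theorem even_pairs {V : Type} (G : SimpleGraph V) (A : Finset V) :
    Even ((A ×ˢ A).filter (fun q => G.Adj q.1 q.2)).card := by
  rw [← ZMod.natCast_eq_zero_iff_even, Finset.card_eq_sum_ones]
  push_cast
  refine Finset.sum_involution (fun q _ => (q.2, q.1)) ?_ ?_ ?_ ?_
  · intro q _
    decide
  · intro q hq _ h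
    have h1 : q.2 = q.1 := congrArg Prod.fst h
    have h2 := (mem_filter.mp hq).2
    rw [h1] at h2
    exact G.loopless.irrefl _ h2
  · intro q hq
    simp only [mem_filter, mem_product] at hq ⊢
    exact ⟨⟨hq.1.2, hq.1.1⟩, hq.2.symm⟩
  · intro q _
    rfl

theorem card_pairs {V : Type} (G : SimpleGraph V) (A B : Finset V) :
    ((A ×ˢ B).filter (fun q => G.Adj q.1 q.2)).card
      = ∑ u ∈ A, ∑ w ∈ B, if G.Adj u w then 1 else 0 := by
  rw [Finset.card_filter, Finset.sum_product]

theorem deg_two {V : Type} [Fintype V] {T : Finset (Finset V)} (hT : Surf T) {v u : V}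
    (h : (sk T).Adj v u) : dR (lk T v) univ u = 2 := by
  have hvu : v ≠ u := h.1
  rw [← hT.two v u h]
  unfold dR
  refine Finset.card_bij (fun w _ => ({v, u, w} : Finset V)) ?_ ?_ ?_
  · intro w hw
    simp only [mem_filter, mem_univ, true_and] at hw
    obtain ⟨h1, h2, h3, t, ht, h4, h5, h6⟩ := hw
    have hc : ({v, u, w} : Finset V).card = 3 := by
      rw [Finset.card_eq_three]
      exact ⟨v, u, w, hvu, h3.symm, h1, rfl⟩
    have hsub : ({v, u, w} : Finset V) ⊆ t := by
      intro x hx
      simp only [mem_insert, mem_singleton] at hx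
      rcases hx with rfl | rfl | rfl
      · exact h4
      · exact h5
      · exact h6
    have heq : ({v, u, w} : Finset V) = t :=
      Finset.eq_of_subset_of_card_le hsub (by rw [hc, hT.card t ht])
    simp only [mem_filter]
    rw [heq]
    exact ⟨ht, h4, h5⟩
  · intro w hw w' hw' heq
    simp only [mem_filter, mem_univ, true_and] at hw hw'
    have h1 : w ∈ ({v, u, w'} : Finset V) := by
      rw [← heq]; simp
    simp only [mem_insert, mem_singleton] at h1
    rcases h1 with h1 | h1 | h1
    · exact absurd h1 hw.2.2.1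
    · exact absurd h1.symm hw.1
    · exact h1
  · intro t ht
    simp only [mem_filter] at ht
    obtain ⟨htT, hv, hu⟩ := ht
    have hc := hT.card t htT
    have h1 : ((t.erase v).erase u).card = 1 := by
      rw [Finset.card_erase_of_mem (by simp [hu, hvu.symm]), Finset.card_erase_of_mem hv, hc]
    obtain ⟨w, hw⟩ := Finset.card_eq_one.mp h1
    have hwm : w ∈ (t.erase v).erase u := by rw [hw]; simp
    simp only [mem_erase] at hwm
    obtain ⟨hwu, hwv, hwt⟩ := hwm
    refine ⟨w, ?_, ?_⟩
    · simp only [mem_filter, mem_univ, true_and]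
      exact ⟨hwu.symm, hvu.symm, hwv, t, htT, hv, hu, hwt⟩
    · apply Finset.eq_of_subset_of_card_le
      · intro x hx
        simp only [mem_insert, mem_singleton] at hx
        rcases hx with rfl | rfl | rfl
        · exact hv
        · exact hu
        · exact hwt
      · rw [hc]
        have hc3 : ({v, u, w} : Finset V).card = 3 := by
          rw [Finset.card_eq_three]
          exact ⟨v, u, w, hvu, hwv.symm, hwu.symm, rfl⟩
        rw [hc3]

/-- packet KC-L1 -/
theorem l1 : StmtL1 := by
  intro V _ T hT
  refine ⟨fun v u h => deg_two hT h, ?_, ?_⟩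
  · rintro v u w ⟨h1, h2, h3, t, ht, h4, h5, h6⟩
    exact ⟨⟨h2.symm, t, ht, h4, h5⟩, ⟨h3.symm, t, ht, h4, h6⟩, ⟨h1, t, ht, h5, h6⟩⟩
  · intro v A hA
    have h1 : ((A ×ˢ (univ \ A)).filter (fun q => (lk T v).Adj q.1 q.2)).card
        + ((A ×ˢ A).filter (fun q => (lk T v).Adj q.1 q.2)).card = 2 * A.card := by
      rw [card_pairs, card_pairs, ← Finset.sum_add_distrib]
      have h2 : ∀ u ∈ A, (∑ w ∈ univ \ A, if (lk T v).Adj u w then 1 else 0)
          + (∑ w ∈ A, if (lk T v).Adj u w then 1 else 0) = 2 := by
        intro u hu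
        rw [Finset.sum_sdiff (Finset.subset_univ A), ← Finset.card_filter]
        exact deg_two hT (hA u hu)
      rw [Finset.sum_congr rfl h2, Finset.sum_const, smul_eq_mul, mul_comm]
    have h3 := even_pairs (lk T v) A
    have h4 : Even (2 * A.card) := even_two_mul _
    rw [← h1] at h4
    exact (Nat.even_add.mp h4).mpr h3

end Pool.Agent.Helper3.KC
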